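import Mathlib

/-! Complete pseudo-Pick pairs: definitions. -/

namespace Pool.Agent.X114.PP

open scoped ComplexOrder

/-- Reproducing kernels (positive semi-definite kernels). -/
def IsKernel {X : Type} (k : X → X → ℂ) : Prop :=
  ∀ (s : Finset X) (c : X → ℂ), 0 ≤ ∑ x ∈ s, ∑ y ∈ s, (starRingEnd ℂ) (c x) * k x y * c y

/-- `F` is in `H_ℓ ⊗ E` with norm at most `C`, by duality with the (dense) kernel functions:
`|⟨F, ∑ ℓ(·,x) v_x⟩| ≤ C ‖∑ ℓ(·,x) v_x‖`. -/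
def NormLe {X E : Type} [NormedAddCommGroup E] [InnerProductSpace ℂ E] (l : X → X → ℂ)
    (F : X → E) (C : ℝ) : Prop :=
  ∀ (s : Finset X) (v : X → E), ‖∑ x ∈ s, inner ℂ (v x) (F x)‖ ^ 2 ≤
    C ^ 2 * (∑ x ∈ s, ∑ y ∈ s, l x y * inner ℂ (v x) (v y)).re

/-- `Φ` is a contractive multiplier of `H_ℓ ⊗ E`. -/
def IsContractiveMultiplier {X E : Type} [NormedAddCommGroup E] [InnerProductSpace ℂ E]
    (l : X → X → ℂ) (Φ : X → E →L[ℂ] E) : Prop :=
  ∀ (F : X → E) (C : ℝ), 0 ≤ C → NormLe l F C → NormLe l (fun x => Φ x (F x)) C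

/-- The block operator `[(I - W_i W_j^*) k(z_i,z_j)]` on `E^n` is positive semi-definite. -/
def PickPositive {X E : Type} [NormedAddCommGroup E] [InnerProductSpace ℂ E] [CompleteSpace E]
    (k : X → X → ℂ) {n : ℕ} (z : Fin n → X) (W : Fin n → E →L[ℂ] E) : Prop :=
  ∀ v : Fin n → E, 0 ≤ ∑ i, ∑ j, k (z i) (z j) *
    inner ℂ (v i) (v j - W i (ContinuousLinearMap.adjoint (W j) (v j)))

/-- Complete pseudo-Pick pairs (the matrices in `M_n(ℂ)` are the operators on `ℂ^n`). -/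
def IsCompletePseudoPick {X : Type} (k l : X → X → ℂ) : Prop :=
  ∀ n : ℕ, 1 ≤ n → ∀ (z : Fin n → X)
    (W : Fin n → EuclideanSpace ℂ (Fin n) →L[ℂ] EuclideanSpace ℂ (Fin n)),
    PickPositive k z W → ∃ Φ : X → EuclideanSpace ℂ (Fin n) →L[ℂ] EuclideanSpace ℂ (Fin n),
      IsContractiveMultiplier l Φ ∧ ∀ i, Φ (z i) = W i

end Pool.Agent.X114.PP
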