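import Mathlib

/-! Pick forms for three points: the algebra. -/

namespace Pool.Agent.X114.PP

open Filter Topology
open scoped InnerProductSpace

variable {E : Type} [NormedAddCommGroup E] [InnerProductSpace ℂ E]

/-- `Re (⟨u,v⟩ - ⟨Vu, V'v⟩)`. -/
noncomputable def e (V V' : E →L[ℂ] E) (u v : E) : ℝ :=
  Complex.re ⟪u, v⟫_ℂ - Complex.re ⟪V u, V' v⟫_ℂ

theorem e_symm (V V' : E →L[ℂ] E) (u v : E) : e V V' u v = e V' V v u := by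
  unfold e
  rw [← inner_conj_symm u v, ← inner_conj_symm (V u) (V' v), Complex.conj_re, Complex.conj_re]

theorem e_add_left (V V' : E →L[ℂ] E) (u u' v : E) : e V V' (u + u') v = e V V' u v + e V V' u' v := by
  unfold e
  rw [map_add, inner_add_left, inner_add_left, Complex.add_re, Complex.add_re]
  ring

theorem e_add_right (V V' : E →L[ℂ] E) (u v v' : E) : e V V' u (v + v') = e V V' u v + e V V' u v' := by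
  unfold e
  rw [map_add, inner_add_right, inner_add_right, Complex.add_re, Complex.add_re]
  ring

theorem e_smul_left (V V' : E →L[ℂ] E) (r : ℝ) (u v : E) :
    e V V' ((r : ℂ) • u) v = r * e V V' u v := by
  unfold e
  rw [map_smul, inner_smul_left, inner_smul_left, Complex.conj_ofReal, Complex.re_ofReal_mul,
    Complex.re_ofReal_mul]
  ring

theorem e_smul_right (V V' : E →L[ℂ] E) (r : ℝ) (u v : E) :
    e V V' u ((r : ℂ) • v) = r * e V V' u v := by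
  rw [e_symm, e_smul_left, e_symm]

@[simp] theorem e_zero_left (V V' : E →L[ℂ] E) (v : E) : e V V' 0 v = 0 := by simp [e]

@[simp] theorem e_zero_right (V V' : E →L[ℂ] E) (v : E) : e V V' v 0 = 0 := by simp [e]

theorem e_neg_right (V V' : E →L[ℂ] E) (u v : E) : e V V' u (-v) = - e V V' u v := by
  have := e_smul_right V V' (-1) u v
  simpa using this

theorem e_neg_left (V V' : E →L[ℂ] E) (u v : E) : e V V' (-u) v = - e V V' u v := by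
  rw [e_symm, e_neg_right, e_symm]

theorem e_self (V : E →L[ℂ] E) (u : E) : e V V u u = ‖u‖ ^ 2 - ‖V u‖ ^ 2 := by
  unfold e
  rw [inner_self_eq_norm_sq_to_K, inner_self_eq_norm_sq_to_K]
  norm_cast

theorem e_norm_le {V : E →L[ℂ] E} (h : ∀ u, 0 ≤ e V V u u) : ‖V‖ ≤ 1 := by
  refine ContinuousLinearMap.opNorm_le_bound _ zero_le_one fun u => ?_
  have := h u
  rw [e_self] at this
  rw [one_mul]
  exact abs_le_of_sq_le_sq' (by linarith) (norm_nonneg _) |>.2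

/-- The two-point form. -/
theorem two_point {V₁ V₂ : E →L[ℂ] E}
    (h : ∀ u v, 0 ≤ e V₁ V₁ u u + e V₂ V₂ v v + 2 / 3 * e V₁ V₂ u v) (u w v : E) :
    0 ≤ e V₁ V₁ u u + e V₁ V₁ w w + e V₂ V₂ v v +
      2 / 5 * (e V₁ V₁ u w + e V₁ V₂ u v + e V₁ V₂ w v) := by
  have h1 := h (((3 / 5 : ℝ) : ℂ) • (u + w)) v
  have h2 := h (u + -w) 0
  rw [e_smul_left, e_smul_right, e_smul_left, e_add_left, e_add_left, e_add_right, e_add_right,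
    e_symm V₁ V₁ w u] at h1
  simp only [e_zero_left, e_zero_right, e_add_left, e_add_right, e_neg_left, e_neg_right,
    e_symm V₁ V₁ w u] at h2
  have h3 := h u 0
  have h4 := h w 0
  simp only [e_zero_left, e_zero_right] at h3 h4
  nlinarith [h1, h2, h3, h4]

theorem cross {V₁ V₂ V₃ : E →L[ℂ] E} [CompleteSpace E] (h1 : ‖V₁‖ ≤ 1) {x₂ x₃ : E}
    (hT : x₃ - ContinuousLinearMap.adjoint V₁ (V₃ x₃) =
      x₂ - ContinuousLinearMap.adjoint V₁ (V₂ x₂)) :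
    e V₃ V₃ x₃ x₃ - 2 * e V₂ V₃ x₂ x₃ + e V₂ V₂ x₂ x₂ ≤ 0 := by
  have h2 : x₃ - x₂ = ContinuousLinearMap.adjoint V₁ (V₃ x₃ - V₂ x₂) := by
    rw [map_sub, sub_eq_sub_iff_add_eq_add]
    rw [sub_eq_sub_iff_add_eq_add] at hT
    rw [hT]
    abel
  have h3 : ‖x₃ - x₂‖ ≤ ‖V₃ x₃ - V₂ x₂‖ := by
    rw [h2]
    refine (ContinuousLinearMap.le_opNorm _ _).trans ?_
    rw [LinearIsometryEquiv.norm_map]
    exact mul_le_of_le_one_left (norm_nonneg _) h1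
  have h4 : ‖x₃ - x₂‖ ^ 2 ≤ ‖V₃ x₃ - V₂ x₂‖ ^ 2 := by gcongr
  rw [e_self, e_self]
  have h5 := norm_sub_sq (𝕜 := ℂ) x₃ x₂
  have h6 := norm_sub_sq (𝕜 := ℂ) (V₃ x₃) (V₂ x₂)
  rw [h5, h6] at h4
  have h7 : e V₂ V₃ x₂ x₃ = RCLike.re ⟪x₃, x₂⟫_ℂ - RCLike.re ⟪V₃ x₃, V₂ x₂⟫_ℂ := by
    rw [e_symm]; rfl
  rw [h7]
  linarith

/-- The three-point form with `c = 4/9`. -/
theorem step_A {V₁ V₂ V₃ : E →L[ℂ] E} [CompleteSpace E] (h1 : ‖V₁‖ ≤ 1) (h3 : ‖V₁‖ * ‖V₃‖ < 1)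
    (h : ∀ x₁ x₂ x₃, 0 ≤ e V₁ V₁ x₁ x₁ + e V₂ V₂ x₂ x₂ + e V₃ V₃ x₃ x₃ +
      2 / 3 * (e V₁ V₂ x₁ x₂ + e V₁ V₃ x₁ x₃ - e V₂ V₃ x₂ x₃)) (x₁ x₂ : E) :
    0 ≤ e V₁ V₁ x₁ x₁ + 8 / 9 * e V₁ V₂ x₁ x₂ + 8 / 9 * e V₂ V₂ x₂ x₂ := by
  have hu : ‖ContinuousLinearMap.adjoint V₁ * V₃‖ < 1 := by
    refine (norm_mul_le _ _).trans_lt ?_
    rw [LinearIsometryEquiv.norm_map]
    exact h3
  obtain ⟨S, hS⟩ := isUnit_one_sub_of_norm_lt_one hu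
  set z : E := ((1 / 3 : ℝ) : ℂ) • x₂ with hz
  set x₃ : E := (↑S⁻¹ : E →L[ℂ] E) (z - ContinuousLinearMap.adjoint V₁ (V₂ z)) with hx₃
  have hT : x₃ - ContinuousLinearMap.adjoint V₁ (V₃ x₃) =
      z - ContinuousLinearMap.adjoint V₁ (V₂ z) := by
    have h4 : (↑S : E →L[ℂ] E) x₃ = z - ContinuousLinearMap.adjoint V₁ (V₂ z) := by
      rw [hx₃]
      have : ((↑S : E →L[ℂ] E) * (↑S⁻¹ : E →L[ℂ] E)) (z - ContinuousLinearMap.adjoint V₁ (V₂ z)) =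
          z - ContinuousLinearMap.adjoint V₁ (V₂ z) := by
        rw [Units.mul_inv]; rfl
      exact this
    rw [hS] at h4
    exact h4
  have h5 := cross (V₃ := V₃) h1 hT
  have h6 : e V₁ V₃ x₁ x₃ = e V₁ V₂ x₁ z := by
    have h7 := congrArg (fun t => Complex.re ⟪x₁, t⟫_ℂ) hT
    simp only [inner_sub_right, ContinuousLinearMap.adjoint_inner_right, Complex.sub_re] at h7
    exact h7
  have h8 := h x₁ x₂ x₃
  have h9 : e V₁ V₂ x₁ z = 1 / 3 * e V₁ V₂ x₁ x₂ := by rw [hz, e_smul_right]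
  have h10 : e V₂ V₃ z x₃ = 1 / 3 * e V₂ V₃ x₂ x₃ := by rw [hz, e_smul_left]
  have h11 : e V₂ V₂ z z = 1 / 9 * e V₂ V₂ x₂ x₂ := by rw [hz, e_smul_left, e_smul_right]; ring
  rw [h10, h11] at h5
  rw [h6, h9] at h8
  linarith

theorem three_strict {V₁ V₂ V₃ : E →L[ℂ] E} [CompleteSpace E] (h1 : ‖V₁‖ < 1)
    (h : ∀ x₁ x₂ x₃, 0 ≤ e V₁ V₁ x₁ x₁ + e V₂ V₂ x₂ x₂ + e V₃ V₃ x₃ x₃ +
      2 / 3 * (e V₁ V₂ x₁ x₂ + e V₁ V₃ x₁ x₃ - e V₂ V₃ x₂ x₃)) (x₁ x₂ x₃ : E) :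
    0 ≤ e V₁ V₁ x₁ x₁ + e V₂ V₂ x₂ x₂ + e V₃ V₃ x₃ x₃ +
      2 / 5 * (e V₁ V₂ x₁ x₂ + e V₁ V₃ x₁ x₃ + e V₂ V₃ x₂ x₃) := by
  have n1 : ∀ u, 0 ≤ e V₁ V₁ u u := fun u => by simpa using h u 0 0
  have n2 : ‖V₂‖ ≤ 1 := e_norm_le fun u => by simpa using h 0 u 0
  have n3 : ‖V₃‖ ≤ 1 := e_norm_le fun u => by simpa using h 0 0 u
  have s3 : ‖V₁‖ * ‖V₃‖ < 1 :=
    (mul_le_of_le_one_right (norm_nonneg _) n3).trans_lt h1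
  have s2 : ‖V₁‖ * ‖V₂‖ < 1 :=
    (mul_le_of_le_one_right (norm_nonneg _) n2).trans_lt h1
  have a2 := step_A h1.le s3 h x₁ x₂
  have h' : ∀ x₁ x₃ x₂, 0 ≤ e V₁ V₁ x₁ x₁ + e V₃ V₃ x₃ x₃ + e V₂ V₂ x₂ x₂ +
      2 / 3 * (e V₁ V₃ x₁ x₃ + e V₁ V₂ x₁ x₂ - e V₃ V₂ x₃ x₂) := by
    intro x₁ x₃ x₂
    rw [e_symm V₃ V₂]
    linarith [h x₁ x₂ x₃]
  have a3 := step_A h1.le s2 h' x₁ x₃
  have a0 := h 0 x₂ (-x₃)
  simp only [e_zero_left, e_neg_left, e_neg_right] at a0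
  linarith [n1 x₁]

/-- Gram forms. -/
noncomputable def g (u v : E) : ℝ := Complex.re ⟪u, v⟫_ℂ

theorem g_symm (u v : E) : g u v = g v u := by
  unfold g
  rw [← inner_conj_symm u v, Complex.conj_re]

theorem g_nonneg (x₁ x₂ x₃ : E) :
    0 ≤ g x₁ x₁ + g x₂ x₂ + g x₃ x₃ + 2 / 3 * (g x₁ x₂ + g x₁ x₃ - g x₂ x₃) := by
  have hself : ∀ x : E, g x x = ‖x‖ ^ 2 := by
    intro x
    unfold g
    rw [inner_self_eq_norm_sq_to_K]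
    norm_cast
  have h1 := norm_add_sq (𝕜 := ℂ) x₁ x₂
  have h2 := norm_add_sq (𝕜 := ℂ) x₁ x₃
  have h3 := norm_sub_sq (𝕜 := ℂ) x₂ x₃
  have e1 : RCLike.re ⟪x₁, x₂⟫_ℂ = g x₁ x₂ := rfl
  have e2 : RCLike.re ⟪x₁, x₃⟫_ℂ = g x₁ x₃ := rfl
  have e3 : RCLike.re ⟪x₂, x₃⟫_ℂ = g x₂ x₃ := rfl
  rw [e1] at h1
  rw [e2] at h2
  rw [e3] at h3
  rw [hself, hself, hself]
  nlinarith [sq_nonneg ‖x₁ + x₂‖, sq_nonneg ‖x₁ + x₃‖, sq_nonneg ‖x₂ - x₃‖, sq_nonneg ‖x₁‖,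
    sq_nonneg ‖x₂‖, sq_nonneg ‖x₃‖]

theorem e_scale (V V' : E →L[ℂ] E) (r : ℝ) (u v : E) :
    e ((r : ℂ) • V) ((r : ℂ) • V') u v = (1 - r ^ 2) * g u v + r ^ 2 * e V V' u v := by
  unfold e g
  rw [smul_apply, smul_apply, inner_smul_left,
    inner_smul_right, Complex.conj_ofReal, Complex.re_ofReal_mul, Complex.re_ofReal_mul]
  ring

theorem three {V₁ V₂ V₃ : E →L[ℂ] E} [CompleteSpace E]
    (h : ∀ x₁ x₂ x₃, 0 ≤ e V₁ V₁ x₁ x₁ + e V₂ V₂ x₂ x₂ + e V₃ V₃ x₃ x₃ +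
      2 / 3 * (e V₁ V₂ x₁ x₂ + e V₁ V₃ x₁ x₃ - e V₂ V₃ x₂ x₃)) (x₁ x₂ x₃ : E) :
    0 ≤ e V₁ V₁ x₁ x₁ + e V₂ V₂ x₂ x₂ + e V₃ V₃ x₃ x₃ +
      2 / 5 * (e V₁ V₂ x₁ x₂ + e V₁ V₃ x₁ x₃ + e V₂ V₃ x₂ x₃) := by
  have n1 : ‖V₁‖ ≤ 1 := e_norm_le fun u => by simpa using h u 0 0
  set G := g x₁ x₁ + g x₂ x₂ + g x₃ x₃ + 2 / 5 * (g x₁ x₂ + g x₁ x₃ + g x₂ x₃) with hG
  set L := e V₁ V₁ x₁ x₁ + e V₂ V₂ x₂ x₂ + e V₃ V₃ x₃ x₃ +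
      2 / 5 * (e V₁ V₂ x₁ x₂ + e V₁ V₃ x₁ x₃ + e V₂ V₃ x₂ x₃) with hL
  have key : ∀ r : ℝ, 0 < r → r < 1 → 0 ≤ (1 - r ^ 2) * G + r ^ 2 * L := by
    intro r hr0 hr1
    have hr2 : r ^ 2 < 1 := by nlinarith
    have hnorm : ‖(r : ℂ) • V₁‖ < 1 := by
      rw [norm_smul, Complex.norm_real, Real.norm_eq_abs, abs_of_pos hr0]
      calc r * ‖V₁‖ ≤ r * 1 := by gcongr
        _ < 1 := by linarith
    have h2 := three_strict (V₁ := (r : ℂ) • V₁) (V₂ := (r : ℂ) • V₂) (V₃ := (r : ℂ) • V₃) hnorm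
      (fun y₁ y₂ y₃ => by
        simp only [e_scale]
        have a1 := mul_nonneg (by linarith : (0 : ℝ) ≤ 1 - r ^ 2) (g_nonneg y₁ y₂ y₃)
        have a2 := mul_nonneg (by positivity : (0 : ℝ) ≤ r ^ 2) (h y₁ y₂ y₃)
        linarith) x₁ x₂ x₃
    simp only [e_scale] at h2
    rw [hG, hL]
    linarith
  have hlim : Tendsto (fun r : ℝ => (1 - r ^ 2) * G + r ^ 2 * L) (𝓝[<] 1)
      (𝓝 ((1 - 1 ^ 2) * G + 1 ^ 2 * L)) := by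
    have : Continuous fun r : ℝ => (1 - r ^ 2) * G + r ^ 2 * L := by fun_prop
    exact (this.tendsto 1).mono_left nhdsWithin_le_nhds
  have hev : ∀ᶠ r : ℝ in 𝓝[<] 1, 0 ≤ (1 - r ^ 2) * G + r ^ 2 * L := by
    filter_upwards [Ioo_mem_nhdsLT (zero_lt_one' ℝ)] with r hr
    exact key r hr.1 hr.2
  have := ge_of_tendsto hlim hev
  linarith

end Pool.Agent.X114.PP
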