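import Pool.Agent.X114.PP.Defs
import Pool.Agent.X114.PP.PP1

/-! The three-point pair is complete pseudo-Pick. -/

namespace Pool.Agent.X114.PP

open Filter Topology
open scoped ComplexOrder

/-- The kernel `k` (real version). -/
noncomputable def kr : Fin 3 → Fin 3 → ℝ := ![![1, 1 / 3, 1 / 3], ![1 / 3, 1, -1 / 3], ![1 / 3, -1 / 3, 1]]

/-- The kernel `ℓ` (real version). -/
noncomputable def lr : Fin 3 → Fin 3 → ℝ := ![![1, 1 / 5, 1 / 5], ![1 / 5, 1, 1 / 5], ![1 / 5, 1 / 5, 1]]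

theorem sum_mem (s : Finset (Fin 3)) (f : Fin 3 → Fin 3 → ℂ) :
    ∑ x ∈ s, ∑ y ∈ s, f x y = ∑ x, ∑ y, if x ∈ s ∧ y ∈ s then f x y else 0 := by
  have h1 : ∀ x, (∑ y, if x ∈ s ∧ y ∈ s then f x y else 0) =
      if x ∈ s then ∑ y ∈ s, f x y else 0 := by
    intro x
    by_cases hx : x ∈ s
    · simp [hx]
    · simp [hx]
  simp_rw [h1]
  simp

theorem kernel_of {r : Fin 3 → Fin 3 → ℝ} (hs : ∀ x y, r x y = r y x)
    (hp : ∀ a : Fin 3 → ℝ, 0 ≤ ∑ x, ∑ y, r x y * (a x * a y)) :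
    IsKernel fun x y => (r x y : ℂ) := by
  intro s c
  rw [sum_mem]
  set u : Fin 3 → ℂ := fun x => if x ∈ s then c x else 0 with hu
  have h1 : ∀ x y, (if x ∈ s ∧ y ∈ s then (starRingEnd ℂ) (c x) * (r x y : ℂ) * c y else 0) =
      (starRingEnd ℂ) (u x) * (r x y : ℂ) * u y := by
    intro x y
    simp only [hu]
    by_cases hx : x ∈ s <;> by_cases hy : y ∈ s <;> simp [hx, hy]
  simp_rw [h1]
  rw [Complex.nonneg_iff]
  constructor
  · have e1 := hp fun x => (u x).re
    have e2 := hp fun x => (u x).im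
    have e3 : (∑ x, ∑ y, (starRingEnd ℂ) (u x) * (r x y : ℂ) * u y).re =
        ∑ x, ∑ y, r x y * ((u x).re * (u y).re) + ∑ x, ∑ y, r x y * ((u x).im * (u y).im) := by
      rw [Complex.re_sum, ← Finset.sum_add_distrib]
      refine Finset.sum_congr rfl fun x _ => ?_
      rw [Complex.re_sum, ← Finset.sum_add_distrib]
      refine Finset.sum_congr rfl fun y _ => ?_
      simp [Complex.mul_re, Complex.mul_im]
      ring
    rw [e3]
    exact add_nonneg e1 e2
  · simp only [Fin.sum_univ_three]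
    rw [hs 1 0, hs 2 0, hs 2 1]
    simp [Complex.add_im, Complex.mul_re, Complex.mul_im]
    ring

theorem k_kernel : IsKernel fun x y => (kr x y : ℂ) := by
  apply kernel_of
  · intro x y
    fin_cases x <;> fin_cases y <;> simp [kr]
  · intro a
    simp only [Fin.sum_univ_three]
    simp [kr]
    nlinarith [sq_nonneg (a 0 + a 1), sq_nonneg (a 0 + a 2), sq_nonneg (a 1 - a 2),
      sq_nonneg (a 0), sq_nonneg (a 1), sq_nonneg (a 2)]

theorem l_kernel : IsKernel fun x y => (lr x y : ℂ) := by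
  apply kernel_of
  · intro x y
    fin_cases x <;> fin_cases y <;> simp [lr]
  · intro a
    simp only [Fin.sum_univ_three]
    simp [lr]
    nlinarith [sq_nonneg (a 0 + a 1), sq_nonneg (a 0 + a 2), sq_nonneg (a 1 + a 2),
      sq_nonneg (a 0), sq_nonneg (a 1), sq_nonneg (a 2)]

theorem k_ne (x y : Fin 3) : (kr x y : ℂ) ≠ 0 := by
  have : kr x y ≠ 0 := by
    fin_cases x <;> fin_cases y <;> simp [kr]
  exact_mod_cast this

theorem not_kernel : ¬ IsKernel fun x y => (lr x y : ℂ) / (kr x y : ℂ) := by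
  intro h
  have h1 := h Finset.univ ![1, -1, -1]
  simp only [Fin.sum_univ_three] at h1
  rw [Complex.nonneg_iff] at h1
  have h2 := h1.1
  simp [kr, lr] at h2
  norm_num at h2

/-- The `ℓ`-form. -/
noncomputable def Lsum {E : Type} [NormedAddCommGroup E] [InnerProductSpace ℂ E]
    (V : Fin 3 → E →L[ℂ] E) (u : Fin 3 → E) : ℝ :=
  ∑ x, ∑ y, lr x y * e (V x) (V y) (u x) (u y)

theorem Lsum_eq {E : Type} [NormedAddCommGroup E] [InnerProductSpace ℂ E]
    (V : Fin 3 → E →L[ℂ] E) (u : Fin 3 → E) {p q t : Fin 3} (hpq : p ≠ q) (hpt : p ≠ t)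
    (hqt : q ≠ t) : Lsum V u = e (V p) (V p) (u p) (u p) + e (V q) (V q) (u q) (u q) +
      e (V t) (V t) (u t) (u t) + 2 / 5 * (e (V p) (V q) (u p) (u q) +
      e (V p) (V t) (u p) (u t) + e (V q) (V t) (u q) (u t)) := by
  have s1 := e_symm (V 1) (V 0) (u 1) (u 0)
  have s2 := e_symm (V 2) (V 0) (u 2) (u 0)
  have s3 := e_symm (V 2) (V 1) (u 2) (u 1)
  unfold Lsum
  simp only [Fin.sum_univ_three]
  fin_cases p <;> fin_cases q <;> fin_cases t <;>
    first
    | exact absurd rfl hpq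
    | exact absurd rfl hpt
    | exact absurd rfl hqt
    | (simp [lr]; linarith)

theorem multiplier_of {n : ℕ} (Φ : Fin 3 → EuclideanSpace ℂ (Fin n) →L[ℂ] EuclideanSpace ℂ (Fin n))
    (h : ∀ u, 0 ≤ Lsum (fun x => ContinuousLinearMap.adjoint (Φ x)) u) :
    IsContractiveMultiplier (fun x y => (lr x y : ℂ)) Φ := by
  intro F C hC hF s v
  have h1 := hF s (fun x => ContinuousLinearMap.adjoint (Φ x) (v x))
  have h2 : ∑ x ∈ s, inner ℂ (v x) (Φ x (F x)) =
      ∑ x ∈ s, inner ℂ (ContinuousLinearMap.adjoint (Φ x) (v x)) (F x) := by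
    refine Finset.sum_congr rfl fun x _ => ?_
    rw [ContinuousLinearMap.adjoint_inner_left]
  rw [h2]
  refine h1.trans (mul_le_mul_of_nonneg_left ?_ (sq_nonneg C))
  have h3 := h fun x => if x ∈ s then v x else 0
  rw [sum_mem s, sum_mem s, ← sub_nonneg, ← Complex.sub_re, ← Finset.sum_sub_distrib]
  refine h3.trans (le_of_eq ?_)
  unfold Lsum
  rw [Complex.re_sum]
  refine Finset.sum_congr rfl fun x _ => ?_
  rw [← Finset.sum_sub_distrib, Complex.re_sum]
  refine Finset.sum_congr rfl fun y _ => ?_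
  by_cases hx : x ∈ s <;> by_cases hy : y ∈ s
  · simp only [hx, hy, and_self, if_true, e]
    rw [Complex.sub_re, Complex.re_ofReal_mul, Complex.re_ofReal_mul]
    ring
  all_goals simp [hx, hy]

end Pool.Agent.X114.PP
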