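import Pool.Agent.X114.PP.PP2

/-! The three-point pair is complete pseudo-Pick: reduction to distinct points. -/

namespace Pool.Agent.X114.PP

open Filter Topology
open scoped ComplexOrder

theorem sum_three {n : ℕ} {a b c : Fin n} (hab : a ≠ b) (hac : a ≠ c) (hbc : b ≠ c)
    (f : Fin n → ℝ) (hf : ∀ i, i ≠ a → i ≠ b → i ≠ c → f i = 0) :
    ∑ i, f i = f a + f b + f c := by
  classical
  rw [← Finset.sum_subset (Finset.subset_univ {a, b, c})]
  · rw [Finset.sum_insert (by simp [hab, hac]), Finset.sum_insert (by simp [hbc]),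
      Finset.sum_singleton]
    ring
  · intro i _ hi
    simp only [Finset.mem_insert, Finset.mem_singleton, not_or] at hi
    exact hf i hi.1 hi.2.1 hi.2.2

theorem sum_two {n : ℕ} {a b : Fin n} (hab : a ≠ b)
    (f : Fin n → ℝ) (hf : ∀ i, i ≠ a → i ≠ b → f i = 0) :
    ∑ i, f i = f a + f b := by
  classical
  rw [← Finset.sum_subset (Finset.subset_univ {a, b})]
  · rw [Finset.sum_insert (by simp [hab]), Finset.sum_singleton]
  · intro i _ hi
    simp only [Finset.mem_insert, Finset.mem_singleton, not_or] at hi
    exact hf i hi.1 hi.2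

section

variable {n : ℕ} {z : Fin n → Fin 3} {W : Fin n → EuclideanSpace ℂ (Fin n) →L[ℂ] EuclideanSpace ℂ (Fin n)}

theorem real_form (h : PickPositive (fun x y => (kr x y : ℂ)) z W) (v : Fin n → EuclideanSpace ℂ (Fin n)) :
    0 ≤ ∑ i, ∑ j, kr (z i) (z j) * e (ContinuousLinearMap.adjoint (W i)) (ContinuousLinearMap.adjoint (W j)) (v i) (v j) := by
  have h1 := (Complex.nonneg_iff.1 (h v)).1
  refine h1.trans (le_of_eq ?_)
  rw [Complex.re_sum]
  refine Finset.sum_congr rfl fun i _ => ?_
  rw [Complex.re_sum]
  refine Finset.sum_congr rfl fun j _ => ?_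
  rw [Complex.re_ofReal_mul]
  congr 1
  rw [inner_sub_right, ← ContinuousLinearMap.adjoint_inner_left, Complex.sub_re]
  rfl

theorem form_one (h : PickPositive (fun x y => (kr x y : ℂ)) z W) (a : Fin n) (u : EuclideanSpace ℂ (Fin n)) :
    0 ≤ e (ContinuousLinearMap.adjoint (W a)) (ContinuousLinearMap.adjoint (W a)) u u := by
  classical
  have h1 := real_form h (fun i => if i = a then u else 0)
  rw [Finset.sum_eq_single a, Finset.sum_eq_single a] at h1
  · have : kr (z a) (z a) = 1 := by
      generalize z a = x
      fin_cases x <;> simp [kr]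
    rw [this] at h1
    simpa using h1
  · intro j _ hj
    simp [hj]
  · simp
  · intro i _ hi
    simp [hi]
  · simp

theorem form_two (h : PickPositive (fun x y => (kr x y : ℂ)) z W) {a b : Fin n} (hab : a ≠ b)
    (u v : EuclideanSpace ℂ (Fin n)) :
    0 ≤ e (ContinuousLinearMap.adjoint (W a)) (ContinuousLinearMap.adjoint (W a)) u u + e (ContinuousLinearMap.adjoint (W b)) (ContinuousLinearMap.adjoint (W b)) v v +
      2 * kr (z a) (z b) * e (ContinuousLinearMap.adjoint (W a)) (ContinuousLinearMap.adjoint (W b)) u v := by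
  classical
  have h1 := real_form h (fun i => if i = a then u else if i = b then v else 0)
  rw [sum_two hab] at h1
  · rw [sum_two hab, sum_two hab] at h1
    · have e1 : ∀ x, kr x x = 1 := fun x => by fin_cases x <;> simp [kr]
      have e2 : kr (z b) (z a) = kr (z a) (z b) := by
        generalize z a = x
        generalize z b = y
        fin_cases x <;> fin_cases y <;> simp [kr]
      have e3 := e_symm (ContinuousLinearMap.adjoint (W b)) (ContinuousLinearMap.adjoint (W a)) v u
      simp only [if_true, hab.symm, if_false, e1, e2] at h1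
      rw [e3] at h1
      linarith
    · intro j h1 h2; simp [h1, h2]
    · intro j h1 h2; simp [h1, h2]
  · intro i h1 h2
    simp [h1, h2]

theorem form_three (h : PickPositive (fun x y => (kr x y : ℂ)) z W) {a b c : Fin n}
    (ha : z a = 0) (hb : z b = 1) (hc : z c = 2) (u v w : EuclideanSpace ℂ (Fin n)) :
    0 ≤ e (ContinuousLinearMap.adjoint (W a)) (ContinuousLinearMap.adjoint (W a)) u u + e (ContinuousLinearMap.adjoint (W b)) (ContinuousLinearMap.adjoint (W b)) v v +
      e (ContinuousLinearMap.adjoint (W c)) (ContinuousLinearMap.adjoint (W c)) w w + 2 / 3 * (e (ContinuousLinearMap.adjoint (W a)) (ContinuousLinearMap.adjoint (W b)) u v +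
      e (ContinuousLinearMap.adjoint (W a)) (ContinuousLinearMap.adjoint (W c)) u w - e (ContinuousLinearMap.adjoint (W b)) (ContinuousLinearMap.adjoint (W c)) v w) := by
  classical
  have hab : a ≠ b := by rintro rfl; rw [ha] at hb; exact absurd hb (by decide)
  have hac : a ≠ c := by rintro rfl; rw [ha] at hc; exact absurd hc (by decide)
  have hbc : b ≠ c := by rintro rfl; rw [hb] at hc; exact absurd hc (by decide)
  have h1 := real_form h (fun i => if i = a then u else if i = b then v else if i = c then w else 0)
  rw [sum_three hab hac hbc] at h1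
  · rw [sum_three hab hac hbc, sum_three hab hac hbc, sum_three hab hac hbc] at h1
    · have e3 := e_symm (ContinuousLinearMap.adjoint (W b)) (ContinuousLinearMap.adjoint (W a)) v u
      have e4 := e_symm (ContinuousLinearMap.adjoint (W c)) (ContinuousLinearMap.adjoint (W a)) w u
      have e5 := e_symm (ContinuousLinearMap.adjoint (W c)) (ContinuousLinearMap.adjoint (W b)) w v
      simp only [if_true, hab.symm, hac.symm, hbc.symm, if_false, ha, hb, hc] at h1
      rw [e3, e4, e5] at h1
      simp [kr] at h1
      linarith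
    · intro j h1 h2 h3; simp [h1, h2, h3]
    · intro j h1 h2 h3; simp [h1, h2, h3]
    · intro j h1 h2 h3; simp [h1, h2, h3]
  · intro i h1 h2 h3
    simp [h1, h2, h3]

theorem same_value (h : PickPositive (fun x y => (kr x y : ℂ)) z W) {a b : Fin n}
    (hz : z a = z b) : W a = W b := by
  by_cases hab : a = b
  · rw [hab]
  have h1 : ∀ u, ContinuousLinearMap.adjoint (W a) u = ContinuousLinearMap.adjoint (W b) u := by
    intro u
    have h2 := form_two h hab u (-u)
    have e1 : kr (z a) (z b) = 1 := by
      rw [hz]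
      generalize z b = x
      fin_cases x <;> simp [kr]
    rw [e1, e_neg_left, e_neg_right, neg_neg, e_neg_right, e_self, e_self] at h2
    have h3 := norm_sub_sq (𝕜 := ℂ) (ContinuousLinearMap.adjoint (W a) u) (ContinuousLinearMap.adjoint (W b) u)
    have h4 : e (ContinuousLinearMap.adjoint (W a)) (ContinuousLinearMap.adjoint (W b)) u u =
        ‖u‖ ^ 2 - RCLike.re (inner ℂ (ContinuousLinearMap.adjoint (W a) u) (ContinuousLinearMap.adjoint (W b) u)) := by
      unfold e
      rw [inner_self_eq_norm_sq_to_K]
      norm_cast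
    rw [h4] at h2
    have h5 : ‖ContinuousLinearMap.adjoint (W a) u - ContinuousLinearMap.adjoint (W b) u‖ ^ 2 ≤ 0 := by
      rw [h3]
      linarith
    have h6 : ‖ContinuousLinearMap.adjoint (W a) u - ContinuousLinearMap.adjoint (W b) u‖ = 0 := by
      have := norm_nonneg (ContinuousLinearMap.adjoint (W a) u - ContinuousLinearMap.adjoint (W b) u)
      nlinarith
    exact sub_eq_zero.1 (norm_eq_zero.1 h6)
  have h2 : ContinuousLinearMap.adjoint (W a) = ContinuousLinearMap.adjoint (W b) := ContinuousLinearMap.ext h1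
  have h3 := congrArg ContinuousLinearMap.adjoint h2
  rwa [ContinuousLinearMap.adjoint_adjoint, ContinuousLinearMap.adjoint_adjoint] at h3

end

theorem exists_q : ∀ x t : Fin 3, x ≠ t → ∃ q, x ≠ q ∧ q ≠ t := by decide

theorem pseudoPick : IsCompletePseudoPick (fun x y => (kr x y : ℂ)) (fun x y => (lr x y : ℂ)) := by
  classical
  intro n hn z W h
  set i₀ : Fin n := ⟨0, hn⟩ with hi₀
  set Φ : Fin 3 → EuclideanSpace ℂ (Fin n) →L[ℂ] EuclideanSpace ℂ (Fin n) := fun x => if hx : ∃ i, z i = x then W hx.choose else W i₀
    with hΦ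
  have hval : ∀ i, Φ (z i) = W i := by
    intro i
    have hx : ∃ j, z j = z i := ⟨i, rfl⟩
    simp only [hΦ, hx, dif_pos]
    exact same_value h hx.choose_spec
  have hout : ∀ x, (¬ ∃ i, z i = x) → Φ x = W i₀ := by
    intro x hx
    simp only [hΦ, hx, dif_neg, not_false_iff]
  refine ⟨Φ, multiplier_of Φ fun u => ?_, hval⟩
  by_cases hall : ∀ x, ∃ i, z i = x
  · obtain ⟨a, ha⟩ := hall 0
    obtain ⟨b, hb⟩ := hall 1
    obtain ⟨c, hc⟩ := hall 2
    have v0 : Φ 0 = W a := by rw [← ha]; exact hval a
    have v1 : Φ 1 = W b := by rw [← hb]; exact hval b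
    have v2 : Φ 2 = W c := by rw [← hc]; exact hval c
    rw [Lsum_eq _ u (p := 0) (q := 1) (t := 2) (by decide) (by decide) (by decide), v0, v1, v2]
    exact three (form_three h ha hb hc) (u 0) (u 1) (u 2)
  · push Not at hall
    obtain ⟨t, ht⟩ := hall
    have ht' : ¬ ∃ i, z i = t := by push Not; exact ht
    set p := z i₀ with hp
    have hpt : p ≠ t := ht i₀
    obtain ⟨q, hpq, hqt⟩ := exists_q p t hpt
    have vp : Φ p = W i₀ := hval i₀
    have vt : Φ t = W i₀ := hout t ht'
    have key : ∀ a b, 0 ≤ e (ContinuousLinearMap.adjoint (Φ p)) (ContinuousLinearMap.adjoint (Φ p)) a a + e (ContinuousLinearMap.adjoint (Φ q)) (ContinuousLinearMap.adjoint (Φ q)) b b +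
        2 / 3 * e (ContinuousLinearMap.adjoint (Φ p)) (ContinuousLinearMap.adjoint (Φ q)) a b := by
      intro a b
      by_cases hq : ∃ i, z i = q
      · obtain ⟨j, hj⟩ := hq
        have vq : Φ q = W j := by rw [← hj]; exact hval j
        have hij : i₀ ≠ j := by
          intro hcon
          apply hpq
          rw [hp, hcon, hj]
        rw [vp, vq]
        have f1 := form_two h hij a b
        have f2 := form_two h hij a (-b)
        rw [e_neg_left, e_neg_right, neg_neg, e_neg_right] at f2
        rw [← hp, hj] at f1 f2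
        have hk : kr p q = 1 / 3 ∨ kr p q = -1 / 3 := by
          clear_value p
          revert hpq
          fin_cases p <;> fin_cases q <;> simp [kr]
        rcases hk with hk | hk
        · rw [hk] at f1
          linarith
        · rw [hk] at f2
          linarith
      · have vq : Φ q = W i₀ := hout q hq
        rw [vp, vq]
        have f1 := form_one h i₀ (a + b)
        have f2 := form_one h i₀ a
        have f3 := form_one h i₀ b
        rw [e_add_left, e_add_right, e_add_right,
          e_symm (ContinuousLinearMap.adjoint (W i₀)) (ContinuousLinearMap.adjoint (W i₀)) b a] at f1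
        linarith
    have h2 := two_point key (u p) (u t) (u q)
    rw [Lsum_eq _ u hpq hpt hqt]
    have vt' : Φ t = Φ p := by rw [vt, vp]
    simp only [vt'] 
    rw [e_symm (ContinuousLinearMap.adjoint (Φ q)) (ContinuousLinearMap.adjoint (Φ p)) (u q) (u t)]
    linarith

end Pool.Agent.X114.PP
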